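import Mathlib
import Pool.Agent.Results.MP_d10d5e_co.CycleDefectStability
import Pool.Agent.Helper951.WheelCE

/-!
# Graphs without a cycle of length `2k` or `2k+1` sharing an edge with a triangle

`cycleTriangle t` is the graph on `t + 1` vertices obtained from the cycle `C_t` and a triangle by
identifying an edge of the cycle with an edge of the triangle. For `t ≤ n` it is a subgraph of the
fan `K_1 ∨ P_n`: the vertex `0` of the cycle goes to the hub, the other vertices and then the tip of
the triangle go along the path. So a graph without `cycleTriangle (2k)` or without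
`cycleTriangle (2k+1)` has no fan `K_1 ∨ P_{2k+1}`, and the theorem on fan-free graphs applies.
-/

set_option autoImplicit false

namespace Pool.Agent.Results.MP_c4c42c_co.CycleTriangle

open Finset Pool.Agent.Helper951.Defs Pool.Agent.Helper951.Spec Pool.Agent.Helper951.FanA
open Pool.Agent.Y804.SF Pool.Agent.Results.MP_d10d5e_co.CycleDefectStability

/-- `C_t^△`: the cycle `C_t` on `Fin t` with one extra vertex (the vertex of `Fin 1`) adjacent to
exactly the two ends `0` and `t - 1` of an edge of the cycle. -/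
def cycleTriangle (t : ℕ) : SimpleGraph (Fin t ⊕ Fin 1) where
  Adj x y := match x, y with
    | Sum.inl a, Sum.inl b => (SimpleGraph.cycleGraph t).Adj a b
    | Sum.inl a, Sum.inr _ => a.val = 0 ∨ a.val + 1 = t
    | Sum.inr _, Sum.inl b => b.val = 0 ∨ b.val + 1 = t
    | Sum.inr _, Sum.inr _ => False
  symm := ⟨by
    rintro (a | a) (b | b) h
    · exact (SimpleGraph.cycleGraph t).adj_symm h
    · exact h
    · exact h
    · exact h⟩
  loopless := ⟨by
    rintro (a | a) h
    · exact h.ne rfl
    · exact h⟩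

/-- `C_t^△` is contained in the fan `K_1 ∨ P_n` for `3 ≤ t ≤ n`. -/
theorem cycleTriangle_fan (t n : ℕ) (ht : 3 ≤ t) (h : t ≤ n) :
    (cycleTriangle t).IsContained (fan n) := by
  obtain ⟨r, rfl⟩ : ∃ r, t = r + 1 + 2 := ⟨t - 3, by omega⟩
  let f : Fin (r + 1 + 2) ⊕ Fin 1 → Fin 1 ⊕ Fin n := Sum.elim
    (fun i => if hi : i.val = 0 then Sum.inl 0 else Sum.inr ⟨i.val - 1, by omega⟩)
    (fun _ => Sum.inr ⟨r + 2, by omega⟩)
  have hstep : ∀ i j : Fin (r + 1 + 2), j = i + 1 →
      (fan n).Adj (f (Sum.inl i)) (f (Sum.inl j)) := by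
    intro i j hij
    have hv : j.val = if i.val = r + 2 then 0 else i.val + 1 := by
      subst hij
      rw [Fin.val_add_one]
      have : (i = Fin.last (r + 1 + 1)) ↔ i.val = r + 2 := by
        rw [Fin.ext_iff, Fin.val_last]
      simp only [this]
    by_cases h0 : i.val = 0
    · have hj : j.val ≠ 0 := by
        rw [hv, h0, if_neg (by omega)]
        omega
      have e1 : f (Sum.inl i) = Sum.inl 0 := dif_pos h0
      have e2 : f (Sum.inl j) = Sum.inr ⟨j.val - 1, by omega⟩ := dif_neg hj
      rw [e1, e2]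
      exact trivial
    · have e1 : f (Sum.inl i) = Sum.inr ⟨i.val - 1, by omega⟩ := dif_neg h0
      by_cases hl : i.val = r + 2
      · have hj : j.val = 0 := by rw [hv, if_pos hl]
        have e2 : f (Sum.inl j) = Sum.inl 0 := dif_pos hj
        rw [e1, e2]
        exact trivial
      · have hj : j.val = i.val + 1 := by rw [hv, if_neg hl]
        have e2 : f (Sum.inl j) = Sum.inr ⟨j.val - 1, by omega⟩ := dif_neg (by omega)
        rw [e1, e2]
        show (SimpleGraph.pathGraph n).Adj _ _
        rw [SimpleGraph.pathGraph_adj]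
        left
        show i.val - 1 + 1 = j.val - 1
        omega
  have htip : ∀ i : Fin (r + 1 + 2), (i.val = 0 ∨ i.val + 1 = r + 1 + 2) →
      (fan n).Adj (f (Sum.inl i)) (Sum.inr ⟨r + 2, by omega⟩) := by
    intro i hi
    by_cases h0 : i.val = 0
    · have e1 : f (Sum.inl i) = Sum.inl 0 := dif_pos h0
      rw [e1]
      exact trivial
    · have e1 : f (Sum.inl i) = Sum.inr ⟨i.val - 1, by omega⟩ := dif_neg h0
      rw [e1]
      show (SimpleGraph.pathGraph n).Adj _ _
      rw [SimpleGraph.pathGraph_adj]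
      left
      show i.val - 1 + 1 = r + 2
      omega
  have hf : ∀ x y, (cycleTriangle (r + 1 + 2)).Adj x y → (fan n).Adj (f x) (f y) := by
    rintro (i | i) (j | j) hij
    · have hij' : (SimpleGraph.cycleGraph (r + 1 + 2)).Adj i j := hij
      rw [SimpleGraph.cycleGraph_adj] at hij'
      rcases hij' with h' | h'
      · exact (hstep j i (by rw [← h']; abel)).symm
      · exact hstep i j (by rw [← h']; abel)
    · exact htip i hij
    · exact (htip j hij).symm
    · exact (hij : False).elim
  have hval : ∀ i : Fin (r + 1 + 2), f (Sum.inl i) ≠ Sum.inr ⟨r + 2, by omega⟩ := by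
    intro i hi
    by_cases h0 : i.val = 0
    · have e1 : f (Sum.inl i) = Sum.inl 0 := dif_pos h0
      rw [e1] at hi
      exact absurd hi (by simp)
    · have e1 : f (Sum.inl i) = Sum.inr ⟨i.val - 1, by omega⟩ := dif_neg h0
      rw [e1] at hi
      have h3 := Sum.inr.inj hi
      rw [Fin.mk.injEq] at h3
      have := i.isLt
      omega
  have hinj : Function.Injective f := by
    rintro (i | i) (j | j) hij
    · by_cases h0 : i.val = 0 <;> by_cases h1 : j.val = 0
      · exact congrArg Sum.inl (Fin.ext (by omega))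
      · have e1 : f (Sum.inl i) = Sum.inl 0 := dif_pos h0
        have e2 : f (Sum.inl j) = Sum.inr ⟨j.val - 1, by omega⟩ := dif_neg h1
        rw [e1, e2] at hij
        exact absurd hij (by simp)
      · have e1 : f (Sum.inl i) = Sum.inr ⟨i.val - 1, by omega⟩ := dif_neg h0
        have e2 : f (Sum.inl j) = Sum.inl 0 := dif_pos h1
        rw [e1, e2] at hij
        exact absurd hij (by simp)
      · have e1 : f (Sum.inl i) = Sum.inr ⟨i.val - 1, by omega⟩ := dif_neg h0
        have e2 : f (Sum.inl j) = Sum.inr ⟨j.val - 1, by omega⟩ := dif_neg h1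
        rw [e1, e2] at hij
        have h3 := Sum.inr.inj hij
        rw [Fin.mk.injEq] at h3
        exact congrArg Sum.inl (Fin.ext (by omega))
    · exact absurd hij (hval i)
    · exact absurd hij.symm (hval j)
    · rw [Subsingleton.elim i j]
  exact ⟨⟨⟨f, fun {i j} h => hf i j h⟩, hinj⟩⟩

/-- the number of edges of `K_k ∨ s K_1` -/
lemma splitGraph_edges (k s : ℕ) : (splitGraph k s).edgeSet.ncard = k.choose 2 + k * s := by
  classical
  have hd : (splitGraph k s).edgeSet.ncard = (splitGraph k s).edgeFinset.card := by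
    rw [Set.ncard_eq_toFinset_card']
    rfl
  rw [hd]
  have h := (splitGraph k s).sum_degrees_eq_twice_card_edges
  rw [Fintype.sum_sum_type] at h
  have h1 : ∀ i : Fin k, (splitGraph k s).degree (Sum.inl i) = (k - 1) + s := by
    intro i
    rw [← SimpleGraph.card_neighborFinset_eq_degree]
    have : (splitGraph k s).neighborFinset (Sum.inl i) =
        (Finset.univ.erase i).map Function.Embedding.inl ∪
          (Finset.univ : Finset (Fin s)).map Function.Embedding.inr := by
      ext x
      rw [SimpleGraph.mem_neighborFinset]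
      rcases x with j | j
      · have e : (splitGraph k s).Adj (Sum.inl i) (Sum.inl j) ↔ i ≠ j := Iff.rfl
        rw [e]
        simp [eq_comm]
      · have e : (splitGraph k s).Adj (Sum.inl i) (Sum.inr j) ↔ True := Iff.rfl
        rw [e]
        simp
    rw [this, Finset.card_union_of_disjoint (Pool.Agent.Helper951.WheelCE.disj_map _ _),
      Finset.card_map, Finset.card_map, Finset.card_erase_of_mem (Finset.mem_univ _)]
    simp
  have h2 : ∀ i : Fin s, (splitGraph k s).degree (Sum.inr i) = k := by
    intro i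
    rw [← SimpleGraph.card_neighborFinset_eq_degree]
    have : (splitGraph k s).neighborFinset (Sum.inr i) =
        (Finset.univ : Finset (Fin k)).map Function.Embedding.inl := by
      ext x
      rw [SimpleGraph.mem_neighborFinset]
      rcases x with j | j
      · have e : (splitGraph k s).Adj (Sum.inr i) (Sum.inl j) ↔ True := Iff.rfl
        rw [e]
        simp
      · have e : (splitGraph k s).Adj (Sum.inr i) (Sum.inr j) ↔ False := Iff.rfl
        rw [e]
        simp
    rw [this, Finset.card_map]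
    simp
  simp only [h1, h2, Finset.sum_const, Finset.card_univ, Fintype.card_fin, smul_eq_mul] at h
  have h3 : 2 * k.choose 2 = k * (k - 1) := by
    rw [Nat.choose_two_right]
    exact Nat.mul_div_cancel' (Nat.even_mul_pred_self k).two_dvd
  have h4 : k * (k - 1 + s) = k * (k - 1) + k * s := by ring
  have h5 : s * k = k * s := mul_comm _ _
  omega

/-- the spectral radius of `K_k ∨ s K_1` -/
lemma splitGraph_specRad (k s : ℕ) (hk : 2 ≤ k) (m : ℕ) (hm : m = k.choose 2 + k * s) :
    specRad (splitGraph k s) = ((k : ℝ) - 1 + √(4 * m - k ^ 2 + 1)) / 2 := by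
  have : Nonempty (Fin k ⊕ Fin s) := ⟨Sum.inl ⟨0, by omega⟩⟩
  classical
  have hkR : (2 : ℝ) ≤ k := by exact_mod_cast hk
  have hs0 : (0 : ℝ) ≤ s := Nat.cast_nonneg s
  have hch : (k.choose 2 : ℝ) = k * (k - 1) / 2 := Nat.cast_choose_two ℝ k
  have hD : (4 * m - k ^ 2 + 1 : ℝ) = (k - 1) ^ 2 + 4 * (k * s) := by
    rw [hm]
    push_cast
    rw [hch]
    ring
  have hks : (0 : ℝ) ≤ k * s := by positivity
  have hD0 : (0 : ℝ) ≤ 4 * m - k ^ 2 + 1 := by rw [hD]; positivity
  have hsq := Real.sq_sqrt hD0
  have hs1 := Real.sqrt_nonneg (4 * m - k ^ 2 + 1 : ℝ)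
  obtain ⟨θ, hθ⟩ : ∃ θ : ℝ, θ = ((k : ℝ) - 1 + √(4 * m - k ^ 2 + 1)) / 2 := ⟨_, rfl⟩
  rw [← hθ]
  have hq : √(4 * m - k ^ 2 + 1 : ℝ) = 2 * θ - (k - 1) := by rw [hθ]; ring
  rw [hq] at hsq hs1
  rw [hD] at hsq
  have hθ2 : θ ^ 2 = (k - 1) * θ + k * s := by nlinarith
  have hθ0 : 0 < θ := by rw [hθ]; linarith [Real.sqrt_nonneg (4 * m - k ^ 2 + 1 : ℝ)]
  let z : Fin k ⊕ Fin s → ℝ := Sum.elim (fun _ => θ) (fun _ => (k : ℝ))
  have hz : ∀ v, 0 < z v := by
    rintro (i | i)
    · exact hθ0
    · simp only [z, Sum.elim_inr]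
      linarith
  have hrow : ∀ v, ∑ u ∈ (splitGraph k s).neighborFinset v, z u = θ * z v := by
    rintro (i | i)
    · have : (splitGraph k s).neighborFinset (Sum.inl i) =
          (Finset.univ.erase i).map Function.Embedding.inl ∪
            (Finset.univ : Finset (Fin s)).map Function.Embedding.inr := by
        ext x
        rw [SimpleGraph.mem_neighborFinset]
        rcases x with j | j
        · have e : (splitGraph k s).Adj (Sum.inl i) (Sum.inl j) ↔ i ≠ j := Iff.rfl
          rw [e]
          simp [eq_comm]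
        · have e : (splitGraph k s).Adj (Sum.inl i) (Sum.inr j) ↔ True := Iff.rfl
          rw [e]
          simp
      rw [this, Finset.sum_union (Pool.Agent.Helper951.WheelCE.disj_map _ _), Finset.sum_map,
        Finset.sum_map]
      simp only [z, Function.Embedding.inl_apply, Function.Embedding.inr_apply, Sum.elim_inl,
        Sum.elim_inr, Finset.sum_const, Finset.card_univ, Fintype.card_fin, nsmul_eq_mul,
        Finset.card_erase_of_mem (Finset.mem_univ _)]
      rw [Nat.cast_sub (by omega)]
      push_cast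
      linarith
    · have : (splitGraph k s).neighborFinset (Sum.inr i) =
          (Finset.univ : Finset (Fin k)).map Function.Embedding.inl := by
        ext x
        rw [SimpleGraph.mem_neighborFinset]
        rcases x with j | j
        · have e : (splitGraph k s).Adj (Sum.inr i) (Sum.inl j) ↔ True := Iff.rfl
          rw [e]
          simp
        · have e : (splitGraph k s).Adj (Sum.inr i) (Sum.inr j) ↔ False := Iff.rfl
          rw [e]
          simp
      rw [this, Finset.sum_map]
      simp only [z, Function.Embedding.inl_apply, Sum.elim_inl,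
        Sum.elim_inr, Finset.sum_const, Finset.card_univ, Fintype.card_fin, nsmul_eq_mul]
      ring
  apply le_antisymm
  · exact specRad_le_of_super _ z hz θ (fun v => (hrow v).le)
  · exact le_specRad_of_sub _ z (fun v => (hz v).le) ⟨Sum.inl ⟨0, by omega⟩, hz _⟩ θ
      (fun v => (hrow v).ge)

/-- Let `k ≥ 2` and `m ≥ (10^60 k^60 2^(4k))^2 + k^2 + k`. Every graph with `m` edges and without
isolated vertices that is `C_{2k}^△`-free or `C_{2k+1}^△`-free has spectral radius at most
`(k - 1 + √(4m - k² + 1)) / 2`, with equality exactly for `K_k ∨ I_s` with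
`s = (m - k(k-1)/2) / k` (which requires this to be an integer). -/
theorem result : ∀ k : ℕ, 2 ≤ k → ∀ m : ℕ,
    (10 ^ 60 * k ^ 60 * 2 ^ (4 * k)) ^ 2 + k ^ 2 + k ≤ m →
    ∀ (V : Type) (_ : Fintype V) (G : SimpleGraph V),
      G.edgeSet.ncard = m → (∀ v, ∃ w, G.Adj v w) →
      (¬ (cycleTriangle (2 * k)).IsContained G ∨ ¬ (cycleTriangle (2 * k + 1)).IsContained G) →
      specRad G ≤ ((k : ℝ) - 1 + √(4 * m - k ^ 2 + 1)) / 2 ∧
      (specRad G = ((k : ℝ) - 1 + √(4 * m - k ^ 2 + 1)) / 2 ↔
        ∃ s : ℕ, m = k.choose 2 + k * s ∧ Nonempty (G ≃g splitGraph k s)) := by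
  classical
  intro k hk m hm V _ G hG hiso hfree
  have hmk : k ^ 2 + k ≤ m :=
    le_trans (Nat.add_le_add_right (Nat.le_add_left (k ^ 2) _) k) hm
  have hneV : Nonempty V := by
    by_contra hcon
    rw [not_nonempty_iff] at hcon
    have h1 : G.edgeSet = ∅ := by
      rw [Set.eq_empty_iff_forall_notMem]
      intro e
      induction e with
      | _ a b => exact (IsEmpty.false a).elim
    rw [h1, Set.ncard_empty] at hG
    have h2 : 0 < k ^ 2 := by positivity
    omega
  have hfan : ¬ (fan (2 * k + 1)).IsContained G := by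
    intro h
    rcases hfree with h' | h'
    · exact h' ((cycleTriangle_fan _ _ (by omega) (by omega)).trans h)
    · exact h' ((cycleTriangle_fan _ _ (by omega) (by omega)).trans h)
  have key : ((k : ℝ) - 1 + √(4 * m - k ^ 2 + 1)) / 2 ≤ specRad G →
      ∃ s : ℕ, m = k.choose 2 + k * s ∧ Nonempty (G ≃g splitGraph k s) := by
    intro h
    have hmkR : (k : ℝ) ^ 2 + k ≤ m := by exact_mod_cast hmk
    have hs0 : 0 ≤ √(4 * m - k ^ 2 + 1 : ℝ) := Real.sqrt_nonneg _
    have hs2 : √(4 * m - k ^ 2 + 1 : ℝ) ^ 2 = 4 * m - k ^ 2 + 1 := by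
      apply Real.sq_sqrt
      have : (0 : ℝ) ≤ m := Nat.cast_nonneg _
      have : (0 : ℝ) ≤ k := Nat.cast_nonneg _
      linarith
    have h3 : √(4 * m - k ^ 2 + 1 : ℝ) ≤ 2 * specRad G - (k - 1) := by linarith
    have h4 := pow_le_pow_left₀ hs0 h3 2
    rw [hs2] at h4
    have h5 : (m : ℝ) - k * (k - 1) / 2 - ((0 : ℕ) : ℝ) / k ≤
        specRad G ^ 2 - (k - 1) * specRad G := by
      rw [Nat.cast_zero, zero_div]
      linarith [h4]
    obtain ⟨L, hL, hcl, hd⟩ :=
      ((Pool.Agent.Results.MP_0daf67_co.DefectStability.result k hk m hm V _ G hG hiso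
        hfan).1 0 (by omega)).1 h5
    obtain ⟨s, ⟨e⟩⟩ := iso_of_zero G k hk hiso L hL hcl (by simpa using hd)
    refine ⟨s, ?_, ⟨e⟩⟩
    rw [← splitGraph_edges k s, ← hG]
    exact Set.ncard_congr' e.mapEdgeSet
  have hval : ∀ s : ℕ, m = k.choose 2 + k * s → Nonempty (G ≃g splitGraph k s) →
      specRad G = ((k : ℝ) - 1 + √(4 * m - k ^ 2 + 1)) / 2 := by
    rintro s hs ⟨e⟩
    have : Nonempty (Fin k ⊕ Fin s) := ⟨Sum.inl ⟨0, by omega⟩⟩
    rw [specRad_iso G _ e, splitGraph_specRad k s hk m hs]
  refine ⟨?_, ?_, ?_⟩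
  · by_contra hcon
    push Not at hcon
    obtain ⟨s, hs, he⟩ := key hcon.le
    exact hcon.ne' (hval s hs he)
  · intro h
    exact key h.ge
  · rintro ⟨s, hs, he⟩
    exact hval s hs he

end Pool.Agent.Results.MP_c4c42c_co.CycleTriangle
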